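import Pool.Agent.helper81.DI.SpecC
import Pool.Agent.helper50.DD.CPL

/-!
# di:C5, central elements supported outside the centraliser of a normal `p`-subgroup
-/

set_option autoImplicit false

namespace Pool.Agent.DI

open Pool.Agent.helper58.DC

/-- a nonzero fixed vector -/
theorem C5_fix (p : ℕ) [Fact p.Prime] (Q : Type) [Group Q] [Finite Q] (hQ : IsPGroup p Q)
    (W : Type) [AddCommGroup W] (a : Q → W →+ W) (a1 : ∀ w, a 1 w = w)
    (am : ∀ u v w, a (u * v) w = a u (a v w)) (hp : ∀ w : W, p • w = 0) (s : W) (hs : s ≠ 0) :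
    ∃ t : W, t ≠ 0 ∧ ∀ u : Q, a u t = t := by
  classical
  let B : Submodule ℤ W := Submodule.span ℤ (Set.range fun u : Q => a u s)
  have hB : ∀ u : Q, ∀ b ∈ B, a u b ∈ B := by
    intro u b hb
    induction hb using Submodule.span_induction with
    | mem x hx =>
      obtain ⟨v, rfl⟩ := hx
      exact Submodule.subset_span ⟨u * v, am u v s⟩
    | zero => rw [map_zero]; exact B.zero_mem
    | add x y _ _ hx hy => rw [map_add]; exact B.add_mem hx hy
    | smul k x _ hx => rw [map_zsmul]; exact B.smul_mem k hx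
  let _ : MulAction Q B :=
    { smul := fun u b => ⟨a u b.1, hB u b.1 b.2⟩
      one_smul := fun b => Subtype.ext (a1 b.1)
      mul_smul := fun u v b => Subtype.ext (am u v b.1) }
  have hsm : ∀ (u : Q) (b : B), ((u • b : B) : W) = a u b.1 := fun _ _ => rfl
  have hpp : p.Prime := Fact.out
  have hfin : Finite B := by
    have : Module.Finite ℤ B := Module.Finite.span_of_finite ℤ (Set.finite_range _)
    refine Module.finite_of_fg_torsion B fun b => ?_
    refine ⟨⟨(p : ℤ), mem_nonZeroDivisors_of_ne_zero (by exact_mod_cast hpp.ne_zero)⟩, ?_⟩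
    apply Subtype.ext
    have := hp b.1
    simpa using this
  have hsB : s ∈ B := Submodule.subset_span ⟨1, a1 s⟩
  have hdvd : p ∣ Nat.card B := by
    have h1 : addOrderOf (⟨s, hsB⟩ : B) = p := by
      apply addOrderOf_eq_prime
      · apply Subtype.ext
        simpa using hp s
      · intro h
        exact hs (congrArg Subtype.val h)
    rw [← h1]
    exact addOrderOf_dvd_natCard _
  have h0 : (0 : B) ∈ MulAction.fixedPoints Q B := fun u => Subtype.ext (map_zero (a u))
  obtain ⟨b, hb, hb0⟩ := hQ.exists_fixed_point_of_prime_dvd_card_of_fixed_point B hdvd h0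
  refine ⟨b.1, fun h => hb0 (Subtype.ext h.symm), fun u => ?_⟩
  rw [← hsm, hb u]

/-- sums of invariant functions -/
theorem C5_orb (p : ℕ) [Fact p.Prime] (H : Type) [Group H] [Fintype H] (P : Subgroup H)
    (hP : IsPGroup p P) (W : Type) [AddCommGroup W] (hp : ∀ w : W, p • w = 0) (F : H → W)
    (hF : ∀ u ∈ P, ∀ x, F (u * x * u⁻¹) = F x)
    (h0 : ∀ x, (∀ u ∈ P, u * x * u⁻¹ = x) → F x = 0) : ∑ x, F x = 0 := by
  classical
  have e := Finset.sum_comp (s := (Finset.univ : Finset H)) (fun w : W => w) F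
  rw [e]
  refine Finset.sum_eq_zero fun w _ => ?_
  by_cases hw : w = 0
  · rw [hw, smul_zero]
  let _ : MulAction P {x : H // F x = w} :=
    { smul := fun u x => ⟨u.1 * x.1 * u.1⁻¹, by rw [hF u.1 u.2, x.2]⟩
      one_smul := fun x => Subtype.ext (by
        show ((1 : P) : H) * x.1 * ((1 : P) : H)⁻¹ = x.1
        simp)
      mul_smul := fun u v x => Subtype.ext (by
        show ((u * v : P) : H) * x.1 * ((u * v : P) : H)⁻¹ = u.1 * (v.1 * x.1 * v.1⁻¹) * u.1⁻¹
        simp [mul_assoc]) }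
  have hmod := hP.card_modEq_card_fixedPoints {x : H // F x = w}
  have hempty : IsEmpty (MulAction.fixedPoints P {x : H // F x = w}) := by
    refine ⟨fun x => hw ?_⟩
    rw [← x.1.2]
    refine h0 _ fun u hu => ?_
    have := x.2 ⟨u, hu⟩
    exact congrArg Subtype.val this
  have hc0 : Nat.card (MulAction.fixedPoints P {x : H // F x = w}) = 0 := Nat.card_of_isEmpty
  rw [hc0, Nat.modEq_zero_iff_dvd, Nat.card_eq_fintype_card, Fintype.card_subtype] at hmod
  obtain ⟨k, hk⟩ := hmod
  rw [hk, mul_comm, mul_smul, hp, smul_zero]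

theorem C5_aux (H : Type) [Group H] [Fintype H] (p : ℕ) [Fact p.Prime]
    (M : Ideal (integralClosure ℤ ℂ)) (hM : M.IsMaximal) (hpM : (p : integralClosure ℤ ℂ) ∈ M)
    (P : Subgroup H) (hPn : P.Normal) (hP : IsPGroup p P)
    (V : Type) [AddCommGroup V] [Module ℂ V] (ρ : Representation ℂ H V) (v : V) (hv : v ≠ 0)
    (z : H → integralClosure ℤ ℂ) (hz : ∀ x y, z (y * x * y⁻¹) = z x)
    (hz0 : ∀ x ∈ cz P, z x = 0) (lam : integralClosure ℤ ℂ)
    (hlam : ∀ w : V, ∑ x, (z x : ℂ) • ρ x w = (lam : ℂ) • w) : lam ∈ M := by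
  classical
  let L : Submodule (integralClosure ℤ ℂ) V :=
    Submodule.span (integralClosure ℤ ℂ) (Set.range fun h : H => ρ h v)
  have hsm : ∀ (c : integralClosure ℤ ℂ) (w : V), c • w = (c : ℂ) • w := fun _ _ => rfl
  have hρL : ∀ h, ∀ l ∈ L, ρ h l ∈ L := by
    intro h l hl
    induction hl using Submodule.span_induction with
    | mem x hx =>
      obtain ⟨k, rfl⟩ := hx
      refine Submodule.subset_span ⟨h * k, ?_⟩
      simp [map_mul]
    | zero => rw [map_zero]; exact L.zero_mem
    | add x y _ _ hx hy => rw [map_add]; exact L.add_mem hx hy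
    | smul c x _ hx =>
      rw [hsm, map_smul]
      exact L.smul_mem c hx
  let f : H → (L →ₗ[integralClosure ℤ ℂ] L) := fun h =>
    { toFun := fun l => ⟨ρ h l.1, hρL h l.1 l.2⟩
      map_add' := fun x y => Subtype.ext (map_add (ρ h) x.1 y.1)
      map_smul' := fun c x => Subtype.ext (map_smul (ρ h) (c : ℂ) x.1) }
  have hf : ∀ h l, ((f h l : L) : V) = ρ h l.1 := fun _ _ => rfl
  let N : Submodule (integralClosure ℤ ℂ) L := M • ⊤
  have hN : ∀ h, N ≤ N.comap (f h) := by
    intro h
    refine Submodule.smul_le.2 fun r hr n _ => ?_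
    rw [Submodule.mem_comap, map_smul]
    exact Submodule.smul_mem_smul hr trivial
  have hNM : ∀ (c : integralClosure ℤ ℂ), c ∈ M → ∀ w : L ⧸ N, c • w = 0 := by
    intro c hc w
    obtain ⟨l, rfl⟩ := Submodule.mkQ_surjective N w
    rw [← map_smul]
    exact (Submodule.Quotient.mk_eq_zero N).2 (Submodule.smul_mem_smul hc trivial)
  let π : H → (L ⧸ N →ₗ[integralClosure ℤ ℂ] L ⧸ N) := fun h => N.mapQ N (f h) (hN h)
  have hπ : ∀ h l, π h (N.mkQ l) = N.mkQ (f h l) := fun _ _ => rfl
  have hπ1 : ∀ w, π 1 w = w := by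
    intro w
    obtain ⟨l, rfl⟩ := Submodule.mkQ_surjective N w
    rw [hπ]
    congr 1
    apply Subtype.ext
    rw [hf, map_one]
    rfl
  have hπm : ∀ g h w, π (g * h) w = π g (π h w) := by
    intro g h w
    obtain ⟨l, rfl⟩ := Submodule.mkQ_surjective N w
    rw [hπ, hπ, hπ]
    congr 1
    apply Subtype.ext
    rw [hf, hf, hf, map_mul]
    rfl
  have hp : ∀ w : L ⧸ N, p • w = 0 := by
    intro w
    have := hNM _ hpM w
    rwa [Nat.cast_smul_eq_nsmul] at this
  -- the quotient is not zero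
  have hvL : v ∈ L := Submodule.subset_span ⟨1, by simp⟩
  have hne : ∃ s : L ⧸ N, s ≠ 0 := by
    by_contra hcon
    push Not at hcon
    have hle : (⊤ : Submodule (integralClosure ℤ ℂ) L) ≤ M • ⊤ := by
      intro l _
      exact (Submodule.Quotient.mk_eq_zero N).1 (hcon (N.mkQ l))
    have hfg : (⊤ : Submodule (integralClosure ℤ ℂ) L).FG := by
      have : Module.Finite (integralClosure ℤ ℂ) L :=
        Module.Finite.span_of_finite _ (Set.finite_range _)
      exact this.fg_top
    obtain ⟨r, hr, hr0⟩ :=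
      Submodule.exists_sub_one_mem_and_smul_eq_zero_of_fg_of_le_smul M ⊤ hfg hle
    have h1 := congrArg Subtype.val (hr0 ⟨v, hvL⟩ trivial)
    have h2 : (r : ℂ) • v = 0 := h1
    rcases smul_eq_zero.1 h2 with h3 | h3
    · have h4 : r = 0 := Subtype.ext h3
      rw [h4, zero_sub] at hr
      apply hM.ne_top
      rw [Ideal.eq_top_iff_one]
      simpa using M.neg_mem hr
    · exact hv h3
  obtain ⟨s, hs⟩ := hne
  obtain ⟨t, ht, htf⟩ := C5_fix p P hP (L ⧸ N) (fun u => (π u.1).toAddMonoidHom)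
    (fun w => hπ1 w) (fun u v w => hπm u.1 v.1 w) hp s hs
  have htf' : ∀ u ∈ P, π u t = t := fun u hu => htf ⟨u, hu⟩
  -- the element acts by zero on `t`
  have hsum : ∑ x, z x • π x t = 0 := by
    refine C5_orb p H P hP (L ⧸ N) hp (fun x => z x • π x t) ?_ ?_
    · intro u hu x
      show z (u * x * u⁻¹) • π (u * x * u⁻¹) t = z x • π x t
      rw [hz]
      have e : u * x * u⁻¹ = x * (x⁻¹ * u * x * u⁻¹) := by group
      have hmem : x⁻¹ * u * x * u⁻¹ ∈ P := by
        refine P.mul_mem ?_ (P.inv_mem hu)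
        have := hPn.conj_mem u hu x⁻¹
        rwa [inv_inv] at this
      rw [e, hπm, htf' _ hmem]
    · intro x hx
      have : x ∈ cz P := by
        rw [Subgroup.mem_centralizer_iff]
        intro u hu
        have := hx u hu
        rw [mul_inv_eq_iff_eq_mul] at this
        exact this
      show z x • π x t = 0
      rw [hz0 x this, zero_smul]
  have hact : ∑ x, z x • π x t = lam • t := by
    obtain ⟨l, rfl⟩ := Submodule.mkQ_surjective N t
    have : ∑ x, z x • f x l = lam • l := by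
      apply Subtype.ext
      have := hlam l.1
      rw [Submodule.coe_smul, hsm, ← this]
      push_cast
      rfl
    rw [← map_smul, ← this, map_sum]
    rfl
  rw [hact] at hsum
  by_contra hlamM
  obtain ⟨y, hy⟩ := hM.exists_inv hlamM
  obtain ⟨i, hi, hi2⟩ := hy
  apply ht
  have h1 : (y * lam + i) • t = t := by rw [hi2, one_smul]
  rw [add_smul, hNM i hi, mul_smul, hsum, smul_zero, add_zero] at h1
  exact h1.symm

theorem C5 (hC3 : C3_stmt) (hTI : TI_stmt) : C5_stmt := by
  intro H _ _ p _ M hM hpM P hPn hP ψ hψ z hz hz0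
  classical
  have : Fintype H := Fintype.ofFinite H
  have hint : IsIntegral ℤ (cc ψ z) :=
    (hC3 H).1 ⊤ ψ ((hTI H ψ).2 hψ) z (fun l _ x => hz.1 x l) hz.2
  obtain ⟨V, _, _, _, ρ, hirr, rfl⟩ := hψ
  have hnt := Pool.Agent.DD.CPL_nontrivial ρ hirr
  obtain ⟨v, hv⟩ := exists_ne (0 : V)
  -- Schur
  obtain ⟨μ, hμ⟩ := Pool.Agent.DD.CPL_schur ρ hirr (∑ x, z x • ρ x) (by
    intro h
    have e1 : (∑ x, z x • ρ x) * ρ h = ∑ x, z x • ρ (x * h) := by
      rw [Finset.sum_mul]
      refine Finset.sum_congr rfl fun g _ => ?_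
      rw [smul_mul_assoc, map_mul]
    have e2 : ρ h * (∑ x, z x • ρ x) = ∑ x, z x • ρ (h * x) := by
      rw [Finset.mul_sum]
      refine Finset.sum_congr rfl fun g _ => ?_
      rw [mul_smul_comm, map_mul]
    rw [e1, e2]
    refine Fintype.sum_equiv (MulAut.conj h⁻¹).toEquiv _ _ fun g => ?_
    have e3 : (MulAut.conj h⁻¹).toEquiv g = h⁻¹ * g * h := by simp
    rw [e3]
    have e4 : z (h⁻¹ * g * h) = z g := by
      have := hz.1 g h⁻¹
      rwa [inv_inv] at this
    rw [e4]
    congr 2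
    group)
  have hdim : (Module.finrank ℂ V : ℂ) ≠ 0 := by
    have := Module.finrank_pos (R := ℂ) (M := V)
    exact_mod_cast this.ne'
  have hcc : cc ρ.character z = μ := by
    have htr := congrArg (LinearMap.trace ℂ V) hμ
    rw [map_sum, map_smul, LinearMap.trace_one, smul_eq_mul] at htr
    unfold cc
    rw [finsum_eq_sum_of_fintype, Representation.char_one, div_eq_iff hdim, ← htr]
    refine Finset.sum_congr rfl fun g _ => ?_
    rw [map_smul, smul_eq_mul]
    rfl
  rw [hcc] at hint ⊢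
  have key := C5_aux H p M hM hpM P hPn hP V ρ v hv (fun x => ⟨z x, hz.2 x⟩)
    (fun x y => Subtype.ext (hz.1 x y)) (fun x hx => Subtype.ext (hz0 x hx)) ⟨μ, hint⟩ (by
      intro w
      have := congrArg (fun T : V →ₗ[ℂ] V => T w) hμ
      simpa [LinearMap.sum_apply] using this)
  exact ⟨_, key, by simp⟩

end Pool.Agent.DI
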